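import Pool.Agent.Helper77.RL.Goals
import Pool.Agent.Helper51.RP.Goals2

/-!
# Project RL, packet LIFT: the lifting theorem
-/

namespace Pool.Agent.Helper49.RL

open NumberField Polynomial Module IsDedekindDomain Pool.Agent.Helper51.SigLeo
open Pool.Agent.Helper51.RP Pool.Agent.Helper77.RL

section one

variable {M : Type} [Field M] [NumberField M]

lemma ordv_mul (w : HeightOneSpectrum (𝓞 M)) {x y : M} (hx : x ≠ 0) (hy : y ≠ 0) :
    ordv w (x * y) = ordv w x + ordv w y := by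
  unfold ordv
  rw [map_mul, WithZero.log_mul ((Valuation.ne_zero_iff _).2 hx) ((Valuation.ne_zero_iff _).2 hy)]
  ring

lemma ordv_pow (w : HeightOneSpectrum (𝓞 M)) (x : M) (n : ℕ) :
    ordv w (x ^ n) = n * ordv w x := by
  unfold ordv
  rw [map_pow, WithZero.log_pow, nsmul_eq_mul]
  ring

lemma val_pow_sub (v : HeightOneSpectrum (𝓞 M)) {a b : M} (ha : v.valuation M a ≤ 1)
    (hb : v.valuation M b ≤ 1) (hab : v.valuation M (a - b) < 1) (n : ℕ) :
    v.valuation M (a ^ n - b ^ n) < 1 := by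
  induction n with
  | zero => simp
  | succ n ih =>
    have e : a ^ (n + 1) - b ^ (n + 1) = a * (a ^ n - b ^ n) + (a - b) * b ^ n := by ring
    rw [e]
    refine Valuation.map_add_lt _ ?_ ?_
    · rw [map_mul]
      exact (mul_le_of_le_one_left' ha).trans_lt ih
    · rw [map_mul, map_pow]
      exact (mul_le_of_le_one_right' (pow_le_one' hb n)).trans_lt hab

lemma val_eq_one (v : HeightOneSpectrum (𝓞 M)) {a : M} (h : v.valuation M (a - 1) < 1) :
    v.valuation M a = 1 := by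
  have h0 : v.valuation M (a - 1) < v.valuation M (1 : M) := by rw [map_one]; exact h
  have h1 := (v.valuation M).map_add_eq_of_lt_left h0
  rwa [add_sub_cancel, map_one] at h1

lemma norm_lt {k : Type} [NormedField k] (v : HeightOneSpectrum (𝓞 M)) (τ : M →+* k)
    (hτ : ∀ b : 𝓞 M, b ∈ v.asIdeal ↔ ‖τ (b : M)‖ < 1) {x : M} (hx : v.valuation M x < 1) :
    ‖τ x‖ < 1 := by
  obtain ⟨n, ⟨d, hd⟩, hnd⟩ := v.exists_primeCompl_mul_eq_of_integer x hx.le
  have hd1 : v.valuation M (algebraMap (𝓞 M) M d) = 1 := by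
    rw [HeightOneSpectrum.valuation_eq_one_iff_notMem]
    exact hd
  have hn0 : v.valuation M (algebraMap (𝓞 M) M n) < 1 := by
    rw [← hnd, map_mul, hd1, mul_one]
    exact hx
  have hn : n ∈ v.asIdeal := (v.valuation_lt_one_iff_mem n).1 hn0
  have h1 : ‖τ (n : M)‖ < 1 := (hτ n).1 hn
  have h2 : ¬ ‖τ (d : M)‖ < 1 := fun h => hd ((hτ d).2 h)
  push Not at h2
  by_contra hcon
  push Not at hcon
  have h3 : ‖τ x‖ * ‖τ (d : M)‖ = ‖τ (n : M)‖ := by
    rw [← norm_mul, ← map_mul]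
    exact congrArg (fun y => ‖τ y‖) hnd
  have h4 : 1 ≤ ‖τ x‖ * ‖τ (d : M)‖ := one_le_mul_of_one_le_of_one_le hcon h2
  linarith

lemma ordv_of_norm {k : Type} [NormedField k] (v : HeightOneSpectrum (𝓞 M)) (τ : M →+* k)
    (hτ : ∀ b : 𝓞 M, b ∈ v.asIdeal ↔ ‖τ (b : M)‖ < 1) {x : M} (hx : ‖τ x‖ = 1) :
    ordv v x = 0 := by
  have h1 : v.valuation M x = 1 := by
    rcases lt_trichotomy (v.valuation M x) 1 with h | h | h
    · have := norm_lt v τ hτ h
      linarith
    · exact h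
    · have h2 : v.valuation M x⁻¹ < 1 := by
        rw [map_inv₀]
        exact inv_lt_one_of_one_lt₀ h
      have h3 := norm_lt v τ hτ h2
      rw [map_inv₀, norm_inv, hx, inv_one] at h3
      linarith
  unfold ordv
  rw [h1]
  simp

end one

section two

variable {M M' : Type} [Field M] [NumberField M] [Field M'] [NumberField M'] [Algebra M M']

lemma val_eq (W : HeightOneSpectrum (𝓞 M')) (v : HeightOneSpectrum (𝓞 M))
    (hord : ∀ x : M, ordv W (algebraMap M M' x) = ordv v x) (x : M) :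
    W.valuation M' (algebraMap M M' x) = v.valuation M x := by
  by_cases hx : x = 0
  · simp [hx]
  · have h := hord x
    unfold ordv at h
    have h1 : WithZero.log (W.valuation M' (algebraMap M M' x)) =
        WithZero.log (v.valuation M x) := neg_injective h
    have ha : W.valuation M' (algebraMap M M' x) ≠ 0 :=
      (Valuation.ne_zero_iff _).2 (by simpa using hx)
    have hb : v.valuation M x ≠ 0 := (Valuation.ne_zero_iff _).2 hx
    rw [← WithZero.exp_log ha, ← WithZero.exp_log hb, h1]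

lemma tame_desc (p : ℕ) (W : HeightOneSpectrum (𝓞 M')) (v : HeightOneSpectrum (𝓞 M))
    (hval : ∀ x : M, W.valuation M' (algebraMap M M' x) = v.valuation M x)
    (hres : ∀ y : 𝓞 M', ∃ x : 𝓞 M, y - algebraMap (𝓞 M) (𝓞 M') x ∈ W.asIdeal) (z : M)
    (hp : p ≠ 0) (h : LocPow p W (algebraMap M M' z)) : LocPow p v z := by
  obtain ⟨y, hy⟩ := h
  have hzy : W.valuation M' (algebraMap M M' z * y ^ p) = 1 := val_eq_one W hy
  have hy0 : y ≠ 0 := by
    rintro rfl
    rw [zero_pow hp, mul_zero, map_zero] at hzy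
    exact zero_ne_one hzy
  obtain ⟨c, hc⟩ := v.valuation_surjective M (W.valuation M' y)
  have hWy : W.valuation M' y ≠ 0 := (Valuation.ne_zero_iff _).2 hy0
  have hc0 : c ≠ 0 := by
    rintro rfl
    rw [map_zero] at hc
    exact hWy hc.symm
  have hc1 : algebraMap M M' c ≠ 0 := by simpa using hc0
  have hu : W.valuation M' (y / algebraMap M M' c) = 1 := by
    rw [map_div₀, hval, hc, div_self hWy]
  obtain ⟨a, ha⟩ := W.exists_valuation_sub_lt_of_integer hu.le 1
  rw [Units.val_one] at ha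
  obtain ⟨x, hx⟩ := hres a
  have hx1 : W.valuation M' (algebraMap (𝓞 M') M' (a - algebraMap (𝓞 M) (𝓞 M') x)) < 1 :=
    (W.valuation_lt_one_iff_mem _).2 hx
  have hxa : algebraMap (𝓞 M') M' (algebraMap (𝓞 M) (𝓞 M') x) = algebraMap M M' (x : M) := rfl
  have hd : W.valuation M' (algebraMap M M' (x : M) - y / algebraMap M M' c) < 1 := by
    have e : algebraMap M M' (x : M) - y / algebraMap M M' c =
        (algebraMap (𝓞 M') M' a - y / algebraMap M M' c) -
          algebraMap (𝓞 M') M' (a - algebraMap (𝓞 M) (𝓞 M') x) := by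
      rw [map_sub, hxa]; ring
    rw [e]
    exact Valuation.map_sub_lt _ ha hx1
  have hx2 : W.valuation M' (algebraMap M M' (x : M)) ≤ 1 := by
    rw [← hxa]
    exact W.valuation_le_one _
  have hpow := val_pow_sub W hx2 hu.le hd p
  refine ⟨c * x, ?_⟩
  rw [← hval]
  have e : algebraMap M M' (z * (c * (x : M)) ^ p - 1) =
      (algebraMap M M' z * (algebraMap M M' c) ^ p) *
        ((algebraMap M M' (x : M)) ^ p - (y / algebraMap M M' c) ^ p) +
        (algebraMap M M' z * y ^ p - 1) := by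
    rw [map_sub, map_mul, map_pow, map_mul, map_one]
    have : (algebraMap M M' c) ^ p * (y / algebraMap M M' c) ^ p = y ^ p := by
      rw [← mul_pow, mul_div_cancel₀ _ hc1]
    rw [mul_sub, mul_assoc _ _ ((y / algebraMap M M' c) ^ p), this]
    ring
  rw [e]
  refine Valuation.map_add_lt _ ?_ hy
  rw [map_mul]
  refine lt_of_le_of_lt (mul_le_of_le_one_left' ?_) hpow
  rw [map_mul, map_pow, hval c, hc, ← map_pow, ← map_mul]
  exact hzy.le

end two

/-- **L_LIFT** -/
theorem l_lift (h1 : L_SUB) (h2 : L_FIX) (h3 : L_DES) (h4 : L_LSD) (h5 : S_NSP) : L_LIFT := by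
  intro p hp k _ _ _ hne L K M M' Ω _ _ _ _ _ _ _ _ _ _ _ _ _ _ _ m n δ δ₁ ζ Φ P hPhi hord hfr
    hLD hTor T hT R al R' al' hLP hM x hx
  by_contra hxp
  have hgal : IsGalois M M' := hLD.gal
  have hpos : 0 < finrank M M' := by
    rw [hLD.deg]
    exact pow_pos hp.out.pos n
  have hfin : FiniteDimensional M M' := Module.finite_of_finrank_pos hpos
  obtain ⟨V, hV, hVp, hVg⟩ := h1 p k L K M M' m n δ δ₁ P hLD (above T) R al R' al' hLP
  obtain ⟨x', hx'V, hx'p, hx'g⟩ := h2 p M M' n hLD.deg V hVp hVg ⟨x, (hV x).2 hx, hxp⟩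
  have hx'S := (hV x').1 hx'V
  obtain ⟨x₀, hx₀, hxx₀⟩ := h3 p K M M' m n δ δ₁ P hPhi.irr hLD hTor x' hx'S.pol hx'g
  have hup : up x₀ ∈ V := by
    have h6 := V.div_mem hx'V (hVp _ hxx₀)
    rwa [div_div_cancel] at h6
  have hupS := (hV _).1 hup
  have hsig : LocSig L (above T : Set (M →+* k)) x₀ :=
    h4 p k hne L K M M' Ω m n δ δ₁ P hPhi.irr hLD T hT x₀ hx₀ hupS.sig
  have hx₀0 : (x₀ : M) ≠ 0 := x₀.ne_zero
  have hS : SelD L (above T) P δ R al x₀ := by
    refine ⟨hx₀, ?_, ?_, hsig⟩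
    · intro v hv
      by_cases hfree : FreeP K v
      · by_cases hat : AtT (above T : Set (M →+* k)) v
        · obtain ⟨τ, hτ, hτv⟩ := hat
          obtain ⟨y, hy⟩ := hsig 0
          have h6 : ordv v (((x₀ * y ^ p : Mˣ)) : M) = 0 :=
            ordv_of_norm v τ hτv (hy τ hτ).1
          rw [Units.val_mul, Units.val_pow_eq_pow_val, ordv_mul v hx₀0 (pow_ne_zero _ y.ne_zero),
            ordv_pow] at h6
          exact ⟨-ordv v (y : M), by linarith⟩
        · obtain ⟨W, hW, hWo⟩ := hLP.unr v hv hat hfree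
          have h6 : W ∉ R' := fun h => hv ((hLP.iff W v hW).1 h)
          have h7 := hupS.dvd W h6
          have h8 : ordv W ((up x₀ : M'ˣ) : M') = ordv v (x₀ : M) := hWo x₀
          rwa [h8] at h7
      · exact h5 p k K M m δ ζ Φ P hPhi hord hfr v hfree x₀ hx₀
    · intro v hv
      obtain ⟨W, hW, hWo, hres⟩ := hLP.split v hv
      have h6 : W ∈ R' := (hLP.iff W v hW).2 hv
      obtain ⟨j, hj⟩ := hupS.tame W h6
      refine ⟨j, tame_desc p W v (val_eq W v hWo) hres _ hp.out.ne_zero ?_⟩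
      rw [hLP.al_eq W v hW hv] at hj
      rw [map_mul, map_pow]
      exact hj
  obtain ⟨y, hy⟩ := hM x₀ hS
  apply hx'p
  obtain ⟨w, hw⟩ := hxx₀
  refine ⟨w * up y, ?_⟩
  have h6 : up x₀ = (up y : M'ˣ) ^ p := by
    rw [hy]
    unfold up
    rw [map_pow]
  rw [mul_pow, ← h6, ← hw, div_mul_cancel]

end Pool.Agent.Helper49.RL
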